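import Mathlib

set_option autoImplicit false

namespace Pool.Agent.Helper8.D2

theorem sq_three (y : ℚ_[3]) : y * y ≠ -1 := by
  intro h
  have h1 : ‖y‖ * ‖y‖ = 1 := by rw [← norm_mul, h, norm_neg, norm_one]
  have h2 : ‖y‖ = 1 := by nlinarith [norm_nonneg y]
  let z : ℤ_[3] := ⟨y, h2.le⟩
  have hz : z * z = -1 := by
    apply Subtype.ext
    show y * y = _
    rw [h]
    simp
  have h3 := congrArg (PadicInt.toZMod (p := 3)) hz
  rw [map_mul, map_neg, map_one] at h3
  have h4 : ∀ u : ZMod 3, u * u ≠ -1 := by decide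
  exact h4 _ h3

theorem even_val (p : ℕ) [Fact p.Prime] (n : ℤ) (hn : n ≠ 0) (y : ℚ_[p]) (h : y * y = (n : ℚ_[p])) :
    Even (padicValNat p n.natAbs) := by
  have hy : y ≠ 0 := by
    rintro rfl
    rw [mul_zero] at h
    exact hn (by exact_mod_cast h.symm)
  have h1 := congrArg Padic.valuation h
  rw [Padic.valuation_mul hy hy] at h1
  have h2 : Padic.valuation ((n : ℚ_[p])) = (padicValNat p n.natAbs : ℤ) := by
    have := Padic.valuation_ratCast (p := p) (n : ℚ)
    rw [Rat.cast_intCast, padicValRat.of_int] at this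
    rw [this]
    rfl
  rw [h2] at h1
  have h3 : Even ((padicValNat p n.natAbs : ℕ) : ℤ) := ⟨_, h1.symm⟩
  exact_mod_cast h3

theorem int_sq (n : ℤ) (h : ∀ (p : ℕ) [Fact p.Prime], ∃ y : ℚ_[p], y * y = (n : ℚ_[p])) :
    ∃ z : ℤ, z * z = n := by
  by_cases hn : n = 0
  · exact ⟨0, by rw [hn]; rfl⟩
  obtain ⟨a, b, hab, ha⟩ := Nat.sq_mul_squarefree n.natAbs
  have hn' : n.natAbs ≠ 0 := Int.natAbs_ne_zero.2 hn
  have ha1 : a = 1 := by
    by_contra hne
    obtain ⟨p, hp, hpa⟩ := Nat.exists_prime_and_dvd hne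
    haveI : Fact p.Prime := ⟨hp⟩
    obtain ⟨y, hy⟩ := h p
    have h1 := even_val p n hn y hy
    have ha0 : a ≠ 0 := ha.ne_zero
    have hb0 : b ≠ 0 := by
      rintro rfl
      apply hn'
      rw [← hab]
      simp
    rw [← hab, padicValNat.mul (pow_ne_zero 2 hb0) ha0, padicValNat.pow] at h1
    have h2 : padicValNat p a = 1 := by
      apply le_antisymm
      · have := ha.natFactorization_le_one p
        rwa [Nat.factorization_def a hp] at this
      · exact one_le_padicValNat_of_dvd ha0 hpa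
    rw [h2] at h1
    have h3 : ¬ Even (2 * padicValNat p b + 1) := by
      rw [Nat.not_even_iff_odd]
      exact ⟨_, rfl⟩
    exact h3 h1
  rw [ha1, mul_one] at hab
  rcases Int.natAbs_eq n with h1 | h1
  · refine ⟨b, ?_⟩
    rw [h1, ← hab]
    push_cast
    ring
  · exfalso
    have hb0 : (b : ℤ) ≠ 0 := by
      intro h0
      apply hn'
      rw [← hab]
      have : b = 0 := by exact_mod_cast h0
      rw [this]
      rfl
    haveI : Fact (Nat.Prime 3) := ⟨by norm_num⟩
    obtain ⟨y, hy⟩ := h 3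
    have h2 : (n : ℚ_[3]) = -((b : ℚ_[3]) * b) := by
      rw [h1, ← hab]
      push_cast
      ring
    have hb1 : (b : ℚ_[3]) ≠ 0 := by exact_mod_cast hb0
    apply sq_three (y / b)
    rw [div_mul_div_comm, hy, h2, neg_div, div_self (mul_ne_zero hb1 hb1)]

end Pool.Agent.Helper8.D2
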