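import Pool.Agent.Helper21.D2.Stmts
import Pool.Agent.Helper8.D2.SQR0

set_option autoImplicit false

namespace Pool.Agent.Helper21.TH

theorem st_SQR : ST_SQR := by
  intro x hx
  have hd : (x.den : ℚ) ≠ 0 := by exact_mod_cast x.den_ne_zero
  obtain ⟨z, hz⟩ := Pool.Agent.Helper8.D2.int_sq (x.num * x.den) (by
    intro p hp
    obtain ⟨y, hy⟩ := hx ⟨p, hp.out⟩
    refine ⟨y * (x.den : ℚ_[p]), ?_⟩
    have h1 : y * y = ((x : ℚ) : ℚ_[p]) := by
      rw [hy]
      exact eq_ratCast _ _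
    have h2 : x * (x.den : ℚ) = x.num := by exact_mod_cast Rat.mul_den_eq_num x
    have h3 : ((x : ℚ) : ℚ_[p]) * (x.den : ℚ_[p]) = (x.num : ℚ_[p]) := by
      have h5 : (((x * (x.den : ℚ) : ℚ)) : ℚ_[p]) = ((x.num : ℚ) : ℚ_[p]) := by rw [h2]
      rw [Rat.cast_mul, Rat.cast_natCast, Rat.cast_intCast] at h5
      exact h5
    push_cast
    calc y * (x.den : ℚ_[p]) * (y * (x.den : ℚ_[p]))
        = (y * y * (x.den : ℚ_[p])) * (x.den : ℚ_[p]) := by ring
      _ = _ := by rw [h1, h3])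
  refine ⟨z / x.den, ?_⟩
  rw [div_mul_div_comm, div_eq_iff (mul_ne_zero hd hd)]
  have h2 : x * (x.den : ℚ) = x.num := by exact_mod_cast Rat.mul_den_eq_num x
  rw [← mul_assoc, h2]
  exact_mod_cast hz

end Pool.Agent.Helper21.TH
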